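import Pool.Agent.Run7.h701.HK.Core

/-!
The number of the prime divisors orthogonal to a nef isotropic divisor.
-/

set_option autoImplicit false

open FF Pool.Agent.W602.GT Pool.Agent.Y172 Pool.Agent.N110 Pool.Agent.N110.NV Pool.Agent.N110.DV

namespace Pool.Agent.Run7.h701.HK

section

variable {K : Type} [Field K] [Algebra ℂ K] {N ρ n : ℕ} {y : Fin (N + 1) → K}
  {c : Place ℂ K → Fin ρ → ℚ} {b : LinearMap.BilinForm ℚ (Fin ρ → ℚ)} {L : Place ℂ K → ℚ}

theorem fin_ord (hy : NormalModel y) {g : K} (hg : g ≠ 0) : Fin0 y (fun P => (P.ord g : ℚ)) := by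
  refine (finite_ord hy hg).subset ?_
  rintro P ⟨hP, h0⟩
  refine ⟨hP, fun h2 => h0 ?_⟩
  change ((P.ord g : ℤ) : ℚ) = 0
  rw [h2]
  simp

/-- A nef divisor is nonnegative on the prime divisors. -/
theorem nef_pair (hy : NormalModel y) (hn : Algebra.trdeg ℂ K = n) (hb : IsBBForm y c b)
    (hL : Fin0 y L) (hnef : NefD y n L) {P : Place ℂ K} (hP : IsPrimeDivisor y P) :
    0 ≤ b (cls y c L) (c P) := by
  obtain ⟨i, hi⟩ := hy.ne
  have hex : ∀ Q : Place ℂ K, ∃ j, Centred y j Q := exists_centred hy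
  choose l hl using hex
  obtain ⟨H, hH⟩ : ∃ H : Place ℂ K → ℚ, H = fun Q => (Q.ord (y i / y (l Q)) : ℚ) := ⟨_, rfl⟩
  have hHf : Fin0 y H := by
    have h1 : (⋃ j : Fin (N + 1), {Q : Place ℂ K | IsPrimeDivisor y Q ∧
        y j ≠ 0 ∧ Q.ord (y i / y j) ≠ 0}).Finite := by
      refine Set.finite_iUnion fun j => ?_
      by_cases hj : y j = 0
      · refine Set.finite_empty.subset ?_
        rintro Q ⟨-, h, -⟩
        exact absurd hj h
      · refine (finite_ord hy (div_ne_zero hi hj)).subset ?_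
        rintro Q ⟨hQ, -, h⟩
        exact ⟨hQ, h⟩
    refine h1.subset ?_
    rintro Q ⟨hQ, h0⟩
    rw [Set.mem_iUnion]
    refine ⟨l Q, hQ, (hl Q).1, fun h2 => h0 ?_⟩
    rw [hH]
    change ((Q.ord (y i / y (l Q)) : ℤ) : ℚ) = 0
    rw [h2]
    simp
  have key : ∀ q : ℕ, 1 ≤ q → 0 ≤ (q : ℚ) * b (c P) (cls y c L) + b (c P) (cls y c H) := by
    intro q hq
    obtain ⟨m, hm, h⟩ := hnef i hi q hq
    obtain ⟨g, hg, h1, h2⟩ := h P (hP.divisorial hy hn)
    have hm' : (0 : ℚ) < m := by exact_mod_cast hm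
    have hf1 : Fin0 y (fun Q => (q : ℚ) * L Q) := Fin0.smul hL _
    have hf2 : Fin0 y (fun Q => (q : ℚ) * L Q + H Q) := hf1.add hHf
    have hf3 : Fin0 y (fun Q => (m : ℚ) * ((q : ℚ) * L Q + H Q)) := hf2.smul _
    obtain ⟨E, hE⟩ : ∃ E : Place ℂ K → ℚ,
      E = fun Q => (Q.ord g : ℚ) + (m : ℚ) * ((q : ℚ) * L Q + H Q) := ⟨_, rfl⟩
    have hEe : Effective y E := by
      constructor
      · intro Q hQ
        have h3 := h1 Q (l Q) hQ (hl Q)
        rw [hE]
        change 0 ≤ (Q.ord g : ℚ) + (m : ℚ) * ((q : ℚ) * L Q + H Q)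
        rw [hH]
        change 0 ≤ (Q.ord g : ℚ) + (m : ℚ) * ((q : ℚ) * L Q + (Q.ord (y i / y (l Q)) : ℚ))
        linarith
      · rw [hE]
        exact (fin_ord hy hg).add hf3
    have hEP : E P = 0 := by
      have h3 := h2 P (l P) hP (fun f hf => localRing_reg hf) (hl P)
      rw [hE]
      change (P.ord g : ℚ) + (m : ℚ) * ((q : ℚ) * L P + H P) = 0
      rw [hH]
      change (P.ord g : ℚ) + (m : ℚ) * ((q : ℚ) * L P + (P.ord (y i / y (l P)) : ℚ)) = 0
      rw [h3]
      ring
    have hcl : cls y c E = (m : ℚ) • ((q : ℚ) • cls y c L + cls y c H) := by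
      rw [hE, cls_add (fin_ord hy hg) hf3, hb.classes.principal g hg, zero_add, cls_smul,
        cls_add hf1 hHf, cls_smul]
    have h4 : 0 ≤ b (c P) (cls y c E) := by
      refine pair_nonneg hEe fun Q hQ hQE => hb.prime P Q hP hQ ?_
      rintro rfl
      exact hQE hEP
    rw [hcl, map_smul, map_add, map_smul, smul_eq_mul, smul_eq_mul] at h4
    exact nonneg_of_mul_nonneg_right h4 hm'
  rw [hb.symm]
  by_contra hcon
  push Not at hcon
  obtain ⟨q, hq⟩ := exists_nat_gt (b (c P) (cls y c H) / (- b (c P) (cls y c L)))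
  have h5 := key (q + 1) (by omega)
  have h6 : 0 < - b (c P) (cls y c L) := by linarith
  rw [div_lt_iff₀ h6] at hq
  push_cast at h5
  nlinarith

theorem iit0 (hb : IsBBForm y c b) (hL : Fin0 y L) {A : Place ℂ K → ℚ} (hA : Effective y A)
    {α : ℚ} (hα : 0 < α) (h : cls y c A = α • cls y c L) : IitakaGe y L 0 := by
  obtain ⟨M, hM, g, hg, hgE⟩ := exists_sec hb hL hA h
  have h1 : 0 < α.num := Rat.num_pos.2 hα
  obtain ⟨p, hp⟩ : ∃ p : ℕ, α.num = p := ⟨α.num.toNat, by omega⟩
  refine ⟨M * p, Nat.mul_pos hM (by omega), fun _ => g, fun _ P hP => Or.inr ?_, hg, ?_⟩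
  · have h2 : ((M * p) • L) P = (M : ℚ) * p * L P := by
      rw [Pi.smul_apply, nsmul_eq_mul]
      push_cast
      ring
    rw [h2, hgE P hP, hp]
    have h3 : 0 ≤ (M : ℚ) * (α.den * A P) :=
      mul_nonneg (Nat.cast_nonneg _) (mul_nonneg (Nat.cast_nonneg _) (hA.1 P hP))
    push_cast
    nlinarith
  · rw [algebraicIndependent_empty_type_iff]
    exact (algebraMap ℂ K).injective

theorem iit1 (hb : IsBBForm y c b) (hL : Fin0 y L) {A B : Place ℂ K → ℚ}
    (hA : Effective y A) (hB : Effective y B) {α : ℚ} (hα : 0 < α)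
    (h : cls y c A = α • cls y c L) (h' : cls y c B = α • cls y c L) {Q : Place ℂ K}
    (hQ : IsPrimeDivisor y Q) (hAB : A Q ≠ B Q) : IitakaGe y L 1 := by
  obtain ⟨M, hM, g, hg, hgE⟩ := exists_sec hb hL hA h
  obtain ⟨M', hM', g', hg', hgE'⟩ := exists_sec hb hL hB h'
  have h1 : 0 < α.num := Rat.num_pos.2 hα
  obtain ⟨p, hp⟩ : ∃ p : ℕ, α.num = p := ⟨α.num.toNat, by omega⟩
  have hMq : (0 : ℚ) < M := by exact_mod_cast hM
  have hMq' : (0 : ℚ) < M' := by exact_mod_cast hM'
  have hdq : (0 : ℚ) < α.den := by exact_mod_cast α.den_pos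
  have hLP : ∀ P, ((M * M' * p) • L) P = (M : ℚ) * M' * p * L P := by
    intro P
    rw [Pi.smul_apply, nsmul_eq_mul]
    push_cast
    ring
  have ho : ∀ P, IsPrimeDivisor y P →
      (P.ord (g ^ M') : ℚ) = M * M' * (α.den * A P - p * L P) := by
    intro P hP
    rw [P.ord_pow]
    push_cast
    rw [hgE P hP, hp]
    push_cast
    ring
  have ho' : ∀ P, IsPrimeDivisor y P →
      (P.ord (g' ^ M) : ℚ) = M * M' * (α.den * B P - p * L P) := by
    intro P hP
    rw [P.ord_pow]
    push_cast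
    rw [hgE' P hP, hp]
    push_cast
    ring
  refine ⟨M * M' * p, Nat.mul_pos (Nat.mul_pos hM hM') (by omega), ![g ^ M', g' ^ M], ?_, ?_, ?_⟩
  · intro j P hP
    right
    rw [hLP]
    have h5 : 0 ≤ (M : ℚ) * M' * (α.den * A P) :=
      mul_nonneg (mul_nonneg hMq.le hMq'.le) (mul_nonneg hdq.le (hA.1 P hP))
    have h6 : 0 ≤ (M : ℚ) * M' * (α.den * B P) :=
      mul_nonneg (mul_nonneg hMq.le hMq'.le) (mul_nonneg hdq.le (hB.1 P hP))
    fin_cases j
    · change -((M : ℚ) * M' * p * L P) ≤ (P.ord (g ^ M') : ℚ)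
      rw [ho P hP]
      nlinarith
    · change -((M : ℚ) * M' * p * L P) ≤ (P.ord (g' ^ M) : ℚ)
      rw [ho' P hP]
      nlinarith
  · exact pow_ne_zero _ hg
  · rw [algebraicIndependent_unique_type_iff]
    change Transcendental ℂ (g' ^ M / g ^ M')
    intro halg
    obtain ⟨z, hz⟩ := const_of_algebraic halg
    have hz0 : z ≠ 0 := by
      rintro rfl
      rw [map_zero] at hz
      exact div_ne_zero (pow_ne_zero _ hg') (pow_ne_zero _ hg) hz
    have h2 : Q.ord (g' ^ M / g ^ M') = 0 := by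
      rw [hz]
      exact Q.ord_const hz0
    rw [Q.ord_div (pow_ne_zero _ hg') (pow_ne_zero _ hg)] at h2
    have h3 : (Q.ord (g' ^ M) : ℚ) = Q.ord (g ^ M') := by
      have : Q.ord (g' ^ M) = Q.ord (g ^ M') := by omega
      rw [this]
    rw [ho Q hQ, ho' Q hQ] at h3
    apply hAB
    have h4 : (M : ℚ) * M' * α.den * (A Q - B Q) = 0 := by linarith
    have h5 := (mul_eq_zero.1 h4).resolve_left (by positivity)
    linarith

/-- A linear relation between the classes of orthogonal prime divisors and `L`. -/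
theorem rel (hy : NormalModel y) (hb : IsBBForm y c b) (hne : cls y c L ≠ 0)
    (hiso : b (cls y c L) (cls y c L) = 0)
    (hnef : ∀ P, IsPrimeDivisor y P → 0 ≤ b (cls y c L) (c P))
    (hL : Fin0 y L) {S : Finset (Place ℂ K)} (hS : ∀ P ∈ S, P ∈ orth y c b L)
    {a : Place ℂ K → ℚ} {t : ℚ} (h : ∑ P ∈ S, a P • c P + t • cls y c L = 0) {Q : Place ℂ K}
    (hQ : Q ∈ S) (haQ : a Q ≠ 0) : IitakaGe y L 0 ∧ (t = 0 → IitakaGe y L 1) := by
  classical
  obtain ⟨A, hA⟩ : ∃ A : Place ℂ K → ℚ, A = fun P => if P ∈ S then max (a P) 0 else 0 := ⟨_, rfl⟩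
  obtain ⟨B, hB⟩ : ∃ B : Place ℂ K → ℚ, B = fun P => if P ∈ S then max (-a P) 0 else 0 := ⟨_, rfl⟩
  have hAS : ∀ P, P ∉ S → A P = 0 := fun P hP => by rw [hA]; exact if_neg hP
  have hBS : ∀ P, P ∉ S → B P = 0 := fun P hP => by rw [hB]; exact if_neg hP
  have hA1 : ∀ P ∈ S, A P = max (a P) 0 := fun P hP => by rw [hA]; exact if_pos hP
  have hB1 : ∀ P ∈ S, B P = max (-a P) 0 := fun P hP => by rw [hB]; exact if_pos hP
  have hSp : ∀ P ∈ S, IsPrimeDivisor y P := fun P hP => (hS P hP).1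
  have hAe : Effective y A := by
    refine ⟨fun P _ => ?_, (Finset.finite_toSet S).subset ?_⟩
    · by_cases hP : P ∈ S
      · rw [hA1 P hP]
        exact le_max_right _ _
      · rw [hAS P hP]
    · rintro P ⟨-, h0⟩
      by_contra hP
      exact h0 (hAS P hP)
  have hBe : Effective y B := by
    refine ⟨fun P _ => ?_, (Finset.finite_toSet S).subset ?_⟩
    · by_cases hP : P ∈ S
      · rw [hB1 P hP]
        exact le_max_right _ _
      · rw [hBS P hP]
    · rintro P ⟨-, h0⟩
      by_contra hP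
      exact h0 (hBS P hP)
  have hcA : cls y c A = ∑ P ∈ S, A P • c P := cls_finset hSp fun P _ hP => hAS P hP
  have hcB : cls y c B = ∑ P ∈ S, B P • c P := cls_finset hSp fun P _ hP => hBS P hP
  have hdiff : cls y c A - cls y c B = ∑ P ∈ S, a P • c P := by
    rw [hcA, hcB, ← Finset.sum_sub_distrib]
    refine Finset.sum_congr rfl fun P hP => ?_
    rw [← sub_smul, hA1 P hP, hB1 P hP]
    congr 1
    rcases le_total 0 (a P) with h0 | h0
    · rw [max_eq_left h0, max_eq_right (by linarith)]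
      ring
    · rw [max_eq_right h0, max_eq_left (by linarith)]
      ring
  have hAB : cls y c A = cls y c B + (-t) • cls y c L := by
    have h1 : cls y c A - cls y c B = (-t) • cls y c L := by
      rw [hdiff, neg_smul]
      exact eq_neg_of_add_eq_zero_left h
    rw [← h1]
    abel
  have horth : ∀ D : Place ℂ K → ℚ, (∀ P, P ∉ S → D P = 0) → ∀ P, IsPrimeDivisor y P → D P ≠ 0 →
      b (cls y c L) (c P) = 0 := by
    intro D hD P _ h0
    have hP : P ∈ S := by
      by_contra hP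
      exact h0 (hD P hP)
    exact (hS P hP).2
  obtain ⟨⟨α, hα⟩, β, hβ⟩ := disj hb hne hiso hAe hBe (horth A hAS) (horth B hBS)
    (fun P _ => by
      by_cases hP : P ∈ S
      · rw [hA1 P hP, hB1 P hP]
        rcases le_total 0 (a P) with h0 | h0
        · right
          exact max_eq_right (by linarith)
        · left
          exact max_eq_right h0
      · exact Or.inl (hAS P hP)) hAB
  have hα' := eff_mult hy hb hne hiso hnef hAe hα
  have hβ' := eff_mult hy hb hne hiso hnef hBe hβ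
  have hABQ : A Q ≠ B Q := by
    rw [hA1 Q hQ, hB1 Q hQ]
    rcases lt_or_gt_of_ne haQ with h0 | h0
    · rw [max_eq_right h0.le, max_eq_left (by linarith)]
      intro h1
      linarith
    · rw [max_eq_left h0.le, max_eq_right (by linarith)]
      exact h0.ne'
  have hpos : 0 < α ∨ 0 < β := by
    by_contra hcon
    push Not at hcon
    have h1 : α = 0 := le_antisymm hcon.1 hα'.1
    have h2 : β = 0 := le_antisymm hcon.2 hβ'.1
    apply hABQ
    rw [hα'.2 h1 Q (hSp Q hQ), hβ'.2 h2 Q (hSp Q hQ)]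
  constructor
  · rcases hpos with h1 | h1
    · exact iit0 hb hL hAe h1 hα
    · exact iit0 hb hL hBe h1 hβ
  · rintro rfl
    rw [neg_zero, zero_smul, add_zero, hα, hβ] at hAB
    have h1 : α = β := smul_left_injective ℚ hne hAB
    subst h1
    exact iit1 hb hL hAe hBe (by rcases hpos with h2 | h2 <;> exact h2) hα hβ (hSp Q hQ) hABQ

/-- Many orthogonal prime divisors. -/
theorem many (hy : NormalModel y) (hb : IsBBForm y c b) (hne : cls y c L ≠ 0)
    (hiso : b (cls y c L) (cls y c L) = 0)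
    (hnef : ∀ P, IsPrimeDivisor y P → 0 ≤ b (cls y c L) (c P))
    (hL : Fin0 y L) {S : Finset (Place ℂ K)} (hS : ∀ P ∈ S, P ∈ orth y c b L) :
    (ρ ≤ S.card + 1 → IitakaGe y L 0) ∧ (ρ ≤ S.card → IitakaGe y L 1) := by
  classical
  obtain ⟨V, hV⟩ : ∃ V : Submodule ℚ (Fin ρ → ℚ), V = LinearMap.ker (b (cls y c L)) := ⟨_, rfl⟩
  have hVL : cls y c L ∈ V := by rw [hV]; exact hiso
  have hVP : ∀ P ∈ S, c P ∈ V := fun P hP => by rw [hV]; exact (hS P hP).2
  have hrank : Module.finrank ℚ V < ρ := by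
    have h1 : V ≠ ⊤ := by
      intro h
      obtain ⟨P, hP, hP0⟩ := exists_prime hb hne hiso
      have h2 : c P ∈ V := by rw [h]; trivial
      rw [hV] at h2
      exact hP0 h2
    have h2 := Submodule.finrank_lt h1
    rwa [Module.finrank_fin_fun] at h2
  constructor
  · intro hc
    let v : Option S → V := fun o => o.elim ⟨cls y c L, hVL⟩ fun P => ⟨c P, hVP P P.2⟩
    have hv : ¬ LinearIndependent ℚ v := by
      intro h
      have h1 := h.fintype_card_le_finrank
      rw [Fintype.card_option, Fintype.card_coe] at h1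
      omega
    rw [Fintype.not_linearIndependent_iff] at hv
    obtain ⟨g, hg, o, ho⟩ := hv
    rw [Fintype.sum_option] at hg
    have hg' : ∑ P ∈ S, (if h : P ∈ S then g (some ⟨P, h⟩) else 0) • c P +
        g none • cls y c L = 0 := by
      have h1 := congrArg Subtype.val hg
      rw [Submodule.coe_add, Submodule.coe_zero, Submodule.coe_smul] at h1
      rw [← h1, add_comm]
      congr 1
      rw [AddSubmonoidClass.coe_finsetSum, ← Finset.sum_coe_sort S]
      refine Finset.sum_congr rfl fun P _ => ?_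
      rw [dif_pos P.2]
      rfl
    have hsome : ∃ P : S, g (some P) ≠ 0 := by
      by_contra hcon
      push Not at hcon
      have h1 : g none • cls y c L = 0 := by
        rw [← hg']
        rw [Finset.sum_eq_zero, zero_add]
        intro P hP
        rw [dif_pos hP, hcon, zero_smul]
      have h2 : g none = 0 := (smul_eq_zero.1 h1).resolve_right hne
      cases o with
      | none => exact ho h2
      | some P => exact ho (hcon P)
    obtain ⟨P, hP⟩ := hsome
    exact (rel hy hb hne hiso hnef hL hS hg' P.2 (by rw [dif_pos P.2]; exact hP)).1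
  · intro hc
    let v : S → V := fun P => ⟨c P, hVP P P.2⟩
    have hv : ¬ LinearIndependent ℚ v := by
      intro h
      have h1 := h.fintype_card_le_finrank
      rw [Fintype.card_coe] at h1
      omega
    rw [Fintype.not_linearIndependent_iff] at hv
    obtain ⟨g, hg, P, hP⟩ := hv
    have hg' : ∑ P ∈ S, (if h : P ∈ S then g ⟨P, h⟩ else 0) • c P +
        (0 : ℚ) • cls y c L = 0 := by
      have h1 := congrArg Subtype.val hg
      rw [Submodule.coe_zero] at h1
      rw [← h1, zero_smul, add_zero]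
      rw [AddSubmonoidClass.coe_finsetSum, ← Finset.sum_coe_sort S]
      refine Finset.sum_congr rfl fun P _ => ?_
      rw [dif_pos P.2]
      rfl
    exact (rel hy hb hne hiso hnef hL hS hg' P.2 (by rw [dif_pos P.2]; exact hP)).2 rfl

end

end Pool.Agent.Run7.h701.HK
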