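import Pool.Agent.Run7.h701.HK.Ord

/-!
The Iitaka dimension of a nef isotropic divisor is the transcendence degree of the set of the
rational functions whose polar divisor is orthogonal to it.
-/

set_option autoImplicit false

open FF Pool.Agent.W602.GT Pool.Agent.Y172 Pool.Agent.N110 Pool.Agent.N110.NV Pool.Agent.N110.DV

namespace Pool.Agent.Run7.h701.HK

section

variable {K : Type} [Field K] [Algebra ℂ K] {N ρ n : ℕ} {y : Fin (N + 1) → K}
  {c : Place ℂ K → Fin ρ → ℚ} {b : LinearMap.BilinForm ℚ (Fin ρ → ℚ)} {L : Place ℂ K → ℚ}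

theorem iitaka_iff (hy : NormalModel y) (hn : Algebra.trdeg ℂ K = n) (hb : IsBBForm y c b)
    (hL : Fin0 y L) (hnef : NefD y n L) (hne : cls y c L ≠ 0)
    (hiso : b (cls y c L) (cls y c L) = 0) {k : ℕ} (hk : 1 ≤ k) :
    IitakaGe y L k ↔ ∃ f : Fin k → K, AlgebraicIndependent ℂ f ∧
      ∀ i, b (cls y c L) (cls y c (polar (f i))) = 0 := by
  have hnef' : ∀ P, IsPrimeDivisor y P → 0 ≤ b (cls y c L) (c P) :=
    fun P hP => nef_pair hy hn hb hL hnef hP
  constructor
  · rintro ⟨m, hm, g, hg, hg0, hai⟩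
    refine ⟨_, hai, fun i => ?_⟩
    have hfi : g i.succ / g 0 ≠ 0 := by
      intro h
      apply hai.transcendental i
      change IsAlgebraic ℂ (g i.succ / g 0)
      rw [h]
      exact isAlgebraic_zero
    have hgi : g i.succ ≠ 0 := fun h => hfi (by rw [h, zero_div])
    refine pair_eq_zero (polar_eff hy hfi).2 fun P hP hP0 => ?_
    by_contra hPo
    have hPo' : P ∉ orth y c b L := fun h => hPo h.2
    have h1 := member_orth hy hb hiso hnef' hL hg0 (hg 0) hP hPo'
    have h2 := member_orth hy hb hiso hnef' hL hgi (hg i.succ) hP hPo'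
    apply hP0
    have h3 : (P.ord (g i.succ / g 0) : ℚ) = 0 := by
      rw [P.ord_div hgi hg0]
      push_cast
      rw [h1, h2]
      ring
    unfold polar
    rw [h3]
    simp
  · rintro ⟨f, hf, h0⟩
    exact iitaka_of_polar hy hb hL hne hiso hnef' hk hf h0

end

end Pool.Agent.Run7.h701.HK
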