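import Pool.Agent.Run7.h701.HK.Par

/-!
Isometries of a hyperbolic lattice which fix a vector of positive square have finite order.
-/

set_option autoImplicit false

open FF Pool.Agent.W602.GT Pool.Agent.Y172 Pool.Agent.N110 Pool.Agent.N110.NV Pool.Agent.N110.DV

namespace Pool.Agent.Run7.h701.HK

section

variable {ρ : ℕ} {b : LinearMap.BilinForm ℚ (Fin ρ → ℚ)}

/-- the Hodge index theorem for any vector of positive square -/
theorem index_of_pos (hs : ∀ u v, b u v = b v u)
    (hi : ∃ h, 0 < b h h ∧ ∀ v, b h v = 0 → v ≠ 0 → b v v < 0) {w : Fin ρ → ℚ}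
    (hw : 0 < b w w) {v : Fin ρ → ℚ} (hv : b w v = 0) (hv0 : v ≠ 0) : b v v < 0 := by
  obtain ⟨h, hh, hneg⟩ := hi
  by_contra hcon
  push Not at hcon
  obtain ⟨u, hu⟩ : ∃ u, u = b h v • w - b h w • v := ⟨_, rfl⟩
  have hhw : b h w ≠ 0 := by
    intro h0
    have hw0 : w ≠ 0 := by
      rintro rfl
      simp at hw
    have := hneg w h0 hw0
    linarith
  have h1 : b h u = 0 := by
    rw [hu, map_sub, map_smul, map_smul, smul_eq_mul, smul_eq_mul]
    ring
  have hu0 : u ≠ 0 := by
    intro h0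
    have h2 : b w u = b h v * b w w := by
      rw [hu, map_sub, map_smul, map_smul, smul_eq_mul, smul_eq_mul, hv]
      ring
    rw [h0, map_zero] at h2
    have h3 : b h v = 0 := (mul_eq_zero.1 h2.symm).resolve_right hw.ne'
    rw [h0, h3, zero_smul, zero_sub] at hu
    have h4 : b h w • v = 0 := by
      rw [← neg_eq_zero]
      exact hu.symm
    rcases smul_eq_zero.1 h4 with h5 | h5
    · exact hhw h5
    · exact hv0 h5
  have h2 := hneg u h1 hu0
  have h3 : b u u = b h v ^ 2 * b w w + b h w ^ 2 * b v v := by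
    rw [hu]
    simp only [map_sub, map_smul, LinearMap.sub_apply, LinearMap.smul_apply, smul_eq_mul, hv,
      hs v w]
    ring
  rw [h3] at h2
  nlinarith [mul_nonneg (sq_nonneg (b h v)) hw.le, mul_nonneg (sq_nonneg (b h w)) hcon]

/-- A positive definite form on `ℚ ^ ρ` takes small values at finitely many integral vectors. -/
theorem finite_small (B : LinearMap.BilinForm ℚ (Fin ρ → ℚ)) (hs : ∀ u v, B u v = B v u)
    (hpos : ∀ v, v ≠ 0 → 0 < B v v) (C : ℚ) :
    {x : Fin ρ → ℚ | (∀ i, ∃ z : ℤ, x i = z) ∧ B x x ≤ C}.Finite := by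
  have hnn : ∀ v, 0 ≤ B v v := by
    intro v
    by_cases hv : v = 0
    · rw [hv]
      simp
    · exact (hpos v hv).le
  -- Cauchy-Schwarz
  have hCS : ∀ u x, (B u x) ^ 2 ≤ B u u * B x x := by
    intro u x
    by_cases hx : x = 0
    · rw [hx]
      simp
    · have h1 := hpos x hx
      have h2 := hnn (B x x • u - B u x • x)
      have h3 : B (B x x • u - B u x • x) (B x x • u - B u x • x) =
          B x x * (B u u * B x x - (B u x) ^ 2) := by
        simp only [map_sub, map_smul, LinearMap.sub_apply, LinearMap.smul_apply, smul_eq_mul,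
          hs x u]
        ring
      rw [h3] at h2
      have h4 := nonneg_of_mul_nonneg_right h2 h1
      linarith
  -- the coordinates are represented
  have hinj : Function.Injective B := by
    rw [← LinearMap.ker_eq_bot, LinearMap.ker_eq_bot']
    intro u hu
    by_contra hu0
    have h1 := hpos u hu0
    rw [hu] at h1
    simp at h1
  have hsurj : Function.Surjective B := by
    have h1 := (LinearMap.injective_iff_surjective_of_finrank_eq_finrank (f := B)
      (Subspace.dual_finrank_eq (K := ℚ) (V := Fin ρ → ℚ)).symm).1 hinj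
    exact h1
  have hrep : ∀ i, ∃ u, ∀ x : Fin ρ → ℚ, B u x = x i := by
    intro i
    obtain ⟨u, hu⟩ := hsurj (LinearMap.proj i)
    exact ⟨u, fun x => by rw [hu]; rfl⟩
  choose u hu using hrep
  have hbound : ∀ i, ∃ k : ℕ, ∀ x, B x x ≤ C → (x i) ^ 2 ≤ k := by
    intro i
    obtain ⟨k, hk⟩ := exists_nat_ge (B (u i) (u i) * C)
    refine ⟨k, fun x hx => ?_⟩
    rw [← hu i x]
    exact (hCS (u i) x).trans ((mul_le_mul_of_nonneg_left hx (hnn (u i))).trans hk)
  choose k hk using hbound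
  have hfin : (Set.pi Set.univ fun i : Fin ρ =>
      ((fun z : ℤ => (z : ℚ)) '' Set.Icc (-(k i : ℤ)) (k i))).Finite :=
    Set.Finite.pi fun i => (Set.finite_Icc _ _).image _
  refine hfin.subset ?_
  rintro x ⟨hx, hxC⟩ i -
  obtain ⟨z, hz⟩ := hx i
  refine ⟨z, ?_, hz.symm⟩
  have h1 := hk i x hxC
  rw [hz] at h1
  have h2 : z ^ 2 ≤ (k i : ℤ) := by exact_mod_cast h1
  constructor
  · nlinarith
  · nlinarith

/-- An isometry which fixes a vector of positive square and preserves an integral spanning set has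
finite order. -/
theorem finite_order (hs : ∀ u v, b u v = b v u)
    (hi : ∃ h, 0 < b h h ∧ ∀ v, b h v = 0 → v ≠ 0 → b v v < 0) {w : Fin ρ → ℚ}
    (hw : 0 < b w w) {T : (Fin ρ → ℚ) ≃ₗ[ℚ] (Fin ρ → ℚ)} (hT : ∀ u v, b (T u) (T v) = b u v)
    (hTw : T w = w) {S : Set (Fin ρ → ℚ)} (hS : Submodule.span ℚ S = ⊤)
    (hSi : ∀ x ∈ S, ∀ i, ∃ z : ℤ, x i = z) (hST : ∀ x ∈ S, T x ∈ S) :
    ∃ m : ℕ, 1 ≤ m ∧ T ^ m = 1 := by
  classical
  -- the positive definite form
  obtain ⟨B, hB⟩ : ∃ B : LinearMap.BilinForm ℚ (Fin ρ → ℚ),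
      ∀ u v, B u v = 2 * b w u * b w v / b w w - b u v := by
    refine ⟨(2 / b w w) • LinearMap.BilinForm.linMulLin (b w) (b w) - b, fun u v => ?_⟩
    simp only [LinearMap.sub_apply, LinearMap.smul_apply, smul_eq_mul,
      LinearMap.BilinForm.linMulLin_apply]
    ring
  have hBs : ∀ u v, B u v = B v u := by
    intro u v
    rw [hB, hB, hs u v]
    ring
  have hBpos : ∀ v, v ≠ 0 → 0 < B v v := by
    intro v hv
    obtain ⟨s, hs'⟩ : ∃ s, s = b w v / b w w := ⟨_, rfl⟩
    obtain ⟨v', hv'⟩ : ∃ v', v' = v - s • w := ⟨_, rfl⟩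
    have h0 : b w v = s * b w w := by
      rw [hs', div_mul_cancel₀ _ hw.ne']
    have h1 : b w v' = 0 := by
      rw [hv', map_sub, map_smul, smul_eq_mul, h0]
      ring
    have h2 : b v v = b v' v' + s ^ 2 * b w w := by
      have h3 : v = v' + s • w := by rw [hv']; abel
      conv_lhs => rw [h3]
      simp only [map_add, map_smul, LinearMap.add_apply, LinearMap.smul_apply, smul_eq_mul, h1,
        hs v' w]
      ring
    have h3 : B v v = s ^ 2 * b w w - b v' v' := by
      rw [hB, h2, h0]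
      field_simp
      ring
    rw [h3]
    by_cases hv0 : v' = 0
    · have h4 : v = s • w := by
        rw [hv0] at hv'
        exact sub_eq_zero.1 hv'.symm
      have h5 : s ≠ 0 := by
        rintro rfl
        rw [zero_smul] at h4
        exact hv h4
      rw [hv0]
      simp only [map_zero, sub_zero]
      positivity
    · have h4 := index_of_pos hs hi hw h1 hv0
      nlinarith [mul_nonneg (sq_nonneg s) hw.le]
  have hBT : ∀ u v, B (T u) (T v) = B u v := by
    intro u v
    have h1 : ∀ x, b w (T x) = b w x := by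
      intro x
      conv_lhs => rw [← hTw]
      exact hT w x
    rw [hB, hB, h1, h1, hT]
  have hpow : ∀ (m : ℕ) (x : Fin ρ → ℚ), B ((T ^ m) x) ((T ^ m) x) = B x x := by
    intro m
    induction m with
    | zero => intro x; rfl
    | succ m ih =>
      intro x
      rw [pow_succ']
      change B (T ((T ^ m) x)) (T ((T ^ m) x)) = _
      rw [hBT, ih]
  have hpowS : ∀ (m : ℕ) (x : Fin ρ → ℚ), x ∈ S → (T ^ m) x ∈ S := by
    intro m
    induction m with
    | zero => intro x hx; exact hx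
    | succ m ih =>
      intro x hx
      rw [pow_succ']
      exact hST _ (ih x hx)
  -- a finite spanning set
  have hfs : ∀ i : Fin ρ, ∃ F : Finset (Fin ρ → ℚ), (F : Set (Fin ρ → ℚ)) ⊆ S ∧
      (Pi.single i 1 : Fin ρ → ℚ) ∈ Submodule.span ℚ (F : Set (Fin ρ → ℚ)) := by
    intro i
    exact Submodule.mem_span_finite_of_mem_span (by rw [hS]; trivial)
  choose F hFS hF using hfs
  obtain ⟨G, hG⟩ : ∃ G : Finset (Fin ρ → ℚ), G = Finset.univ.biUnion F := ⟨_, rfl⟩
  have hGS : ∀ x ∈ G, x ∈ S := by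
    intro x hx
    rw [hG, Finset.mem_biUnion] at hx
    obtain ⟨i, -, hx⟩ := hx
    exact hFS i hx
  -- pigeonhole
  have hfin : (Set.pi Set.univ fun x : G => {z : Fin ρ → ℚ | (∀ i, ∃ a : ℤ, z i = a) ∧
      B z z ≤ B x x}).Finite := Set.Finite.pi fun x => finite_small B hBs hBpos _
  have hmaps : Set.MapsTo (fun m : ℕ => fun x : G => (T ^ m) (x : Fin ρ → ℚ)) Set.univ
      (Set.pi Set.univ fun x : G => {z : Fin ρ → ℚ | (∀ i, ∃ a : ℤ, z i = a) ∧
        B z z ≤ B x x}) := by
    intro m _ x _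
    exact ⟨hSi _ (hpowS m x (hGS x x.2)), (hpow m x).le⟩
  obtain ⟨a, -, a', -, haa, heq⟩ := Set.infinite_univ.exists_ne_map_eq_of_mapsTo hmaps hfin
  have key : ∀ p q : ℕ, p < q → (fun x : G => (T ^ p) (x : Fin ρ → ℚ)) =
      (fun x : G => (T ^ q) (x : Fin ρ → ℚ)) → ∃ m : ℕ, 1 ≤ m ∧ T ^ m = 1 := by
    intro p q hpq h
    refine ⟨q - p, by omega, ?_⟩
    have h1 : T ^ p = T ^ q := by
      apply LinearEquiv.toLinearMap_injective
      refine LinearMap.pi_ext' fun i => LinearMap.ext_ring ?_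
      have h2 : ∀ z ∈ Submodule.span ℚ (F i : Set (Fin ρ → ℚ)), (T ^ p) z = (T ^ q) z := by
        intro z hz
        refine Submodule.span_induction (p := fun z _ => (T ^ p) z = (T ^ q) z) ?_ ?_ ?_ ?_ hz
        · intro x hx
          have hxG : x ∈ G := by
            rw [hG, Finset.mem_biUnion]
            exact ⟨i, Finset.mem_univ i, hx⟩
          exact congrFun h ⟨x, hxG⟩
        · rw [map_zero, map_zero]
        · intro u v _ _ hu hv
          rw [map_add, map_add, hu, hv]
        · intro r u _ hu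
          rw [map_smul, map_smul, hu]
      exact h2 _ (hF i)
    have h2 : T ^ q = T ^ p * T ^ (q - p) := by
      rw [← pow_add]
      congr 1
      omega
    rw [h2] at h1
    exact (mul_eq_left.1 h1.symm)
  rcases lt_or_gt_of_ne haa with h | h
  · exact key a a' h heq
  · exact key a' a h heq.symm

end

section

variable {K : Type} [Field K] [Algebra ℂ K] {N ρ n : ℕ} {y : Fin (N + 1) → K}
  {c : Place ℂ K → Fin ρ → ℚ} {b : LinearMap.BilinForm ℚ (Fin ρ → ℚ)} {L : Place ℂ K → ℚ}

/-- **Invariant functions of parabolic pseudo-automorphisms.** -/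
theorem parabolic (hy : NormalModel y) (hn : Algebra.trdeg ℂ K = n) (hb : IsBBForm y c b)
    (hint : ∀ P, IsPrimeDivisor y P → ∀ i, ∃ z : ℤ, c P i = z)
    (hL : Fin0 y L) (hnef : NefD y n L) (hne : cls y c L ≠ 0)
    (hiso : b (cls y c L) (cls y c L) = 0) {φ : K ≃ₐ[ℂ] K} (hφ : PseudoAut φ y)
    {T : (Fin ρ → ℚ) ≃ₗ[ℚ] (Fin ρ → ℚ)} (hT : IsPull y c φ T)
    (hTb : ∀ u v, b (T u) (T v) = b u v) (hTL : T (cls y c L) = cls y c L)
    (hTi : ∀ m : ℕ, 1 ≤ m → T ^ m ≠ 1) {k : ℕ} (hk : 1 ≤ k) {f : Fin k → K}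
    (hf : AlgebraicIndependent ℂ f) (hφf : ∀ i, φ (f i) = f i) : IitakaGe y L k := by
  have hnef' : ∀ P, IsPrimeDivisor y P → 0 ≤ b (cls y c L) (c P) :=
    fun P hP => nef_pair hy hn hb hL hnef hP
  refine iitaka_of_polar hy hb hL hne hiso hnef' hk hf fun i => ?_
  have hf0 : f i ≠ 0 := by
    intro h
    apply hf.transcendental i
    rw [h]
    exact isAlgebraic_zero
  have h1 := pull_polar hy hφ hT hf0 (hφf i)
  have h2 : 0 ≤ b (cls y c L) (cls y c (polar (f i))) :=
    pair_nonneg (polar_eff hy hf0) fun P hP _ => hnef' P hP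
  by_contra hcon
  have h3 := lt_of_le_of_ne h2 (Ne.symm hcon)
  have h4 := polar_sq hy hb hf0
  obtain ⟨m, hm, hTm⟩ := finite_order (w := cls y c L + cls y c (polar (f i))) hb.symm hb.index
    (by
      simp only [map_add, LinearMap.add_apply, hiso, hb.symm (cls y c (polar (f i))) (cls y c L)]
      linarith) hTb (by rw [map_add, hTL, h1]) (S := {v | ∃ P, IsPrimeDivisor y P ∧ v = c P})
    hb.span (by
      rintro _ ⟨P, hP, rfl⟩
      exact hint P hP) (by
      rintro _ ⟨P, hP, rfl⟩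
      exact ⟨tr φ P, (hφ P _ (tr_ord φ P)).1 hP, hT P _ hP (tr_ord φ P)⟩)
  exact hTi m hm hTm

end

end Pool.Agent.Run7.h701.HK
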