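import Pool.Agent.Run7.h701.HK.Inf
import Pool.Agent.N110.PA.Defs

/-!
Rational functions whose polar divisor is orthogonal to a nef isotropic divisor, and the functions
which are invariant under a pseudo-automorphism of infinite order.
-/

set_option autoImplicit false

open FF Pool.Agent.W602.GT Pool.Agent.Y172 Pool.Agent.N110 Pool.Agent.N110.NV Pool.Agent.N110.DV

namespace Pool.Agent.Run7.h701.HK

section

variable {K : Type} [Field K] [Algebra ℂ K] {N ρ n : ℕ} {y : Fin (N + 1) → K}
  {c : Place ℂ K → Fin ρ → ℚ} {b : LinearMap.BilinForm ℚ (Fin ρ → ℚ)} {L : Place ℂ K → ℚ}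

/-- the polar divisor of a function -/
def polar (f : K) (P : Place ℂ K) : ℚ := max (-(P.ord f : ℚ)) 0

/-- the zero divisor of a function -/
def zeros (f : K) (P : Place ℂ K) : ℚ := max (P.ord f : ℚ) 0

theorem polar_eff (hy : NormalModel y) {f : K} (hf : f ≠ 0) : Effective y (polar f) := by
  refine ⟨fun P _ => le_max_right _ _, (finite_ord hy hf).subset ?_⟩
  rintro P ⟨hP, h0⟩
  refine ⟨hP, fun h => h0 ?_⟩
  simp [polar, h]

theorem zeros_eff (hy : NormalModel y) {f : K} (hf : f ≠ 0) : Effective y (zeros f) := by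
  refine ⟨fun P _ => le_max_right _ _, (finite_ord hy hf).subset ?_⟩
  rintro P ⟨hP, h0⟩
  refine ⟨hP, fun h => h0 ?_⟩
  simp [zeros, h]

theorem zeros_sub_polar (f : K) (P : Place ℂ K) : zeros f P - polar f P = (P.ord f : ℚ) := by
  unfold zeros polar
  rcases le_total 0 (P.ord f : ℚ) with h | h
  · rw [max_eq_left h, max_eq_right (by linarith)]
    ring
  · rw [max_eq_right h, max_eq_left (by linarith)]
    ring

theorem cls_zeros (hy : NormalModel y) (hb : IsBBForm y c b) {f : K} (hf : f ≠ 0) :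
    cls y c (zeros f) = cls y c (polar f) := by
  have h1 := cls_sub (c := c) (zeros_eff hy hf).2 (polar_eff hy hf).2
  have h2 : (fun P => zeros f P - polar f P) = fun P : Place ℂ K => (P.ord f : ℚ) := by
    funext P
    exact zeros_sub_polar f P
  rw [h2, hb.classes.principal f hf] at h1
  exact sub_eq_zero.1 h1.symm

theorem polar_zeros (f : K) (P : Place ℂ K) : polar f P = 0 ∨ zeros f P = 0 := by
  unfold zeros polar
  rcases le_total 0 (P.ord f : ℚ) with h | h
  · left
    exact max_eq_right (by linarith)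
  · right
    exact max_eq_right h

/-- the polar divisor is movable, so its square is nonnegative -/
theorem polar_sq (hy : NormalModel y) (hb : IsBBForm y c b) {f : K} (hf : f ≠ 0) :
    0 ≤ b (cls y c (polar f)) (cls y c (polar f)) := by
  conv_rhs => rw [← cls_zeros hy hb hf]
  rw [cls_zeros hy hb hf]
  have h1 : 0 ≤ b (cls y c (polar f)) (cls y c (zeros f)) := by
    refine pair_nonneg (zeros_eff hy hf) fun P hP hPB => ?_
    rw [hb.symm]
    refine pair_nonneg (polar_eff hy hf) fun Q hQ hQA => hb.prime P Q hP hQ ?_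
    rintro rfl
    rcases polar_zeros f P with h | h
    · exact hQA h
    · exact hPB h
  rwa [cls_zeros hy hb hf] at h1

/-- A nonconstant function with polar divisor orthogonal to `L`: its polar divisor is a positive
multiple of `L`. -/
theorem polar_mult (hy : NormalModel y) (hb : IsBBForm y c b) (hne : cls y c L ≠ 0)
    (hiso : b (cls y c L) (cls y c L) = 0)
    (hnef : ∀ P, IsPrimeDivisor y P → 0 ≤ b (cls y c L) (c P)) {f : K}
    (hf : Transcendental ℂ f) (h0 : b (cls y c L) (cls y c (polar f)) = 0) :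
    ∃ α : ℚ, 0 < α ∧ cls y c (polar f) = α • cls y c L := by
  have hf0 : f ≠ 0 := by
    rintro rfl
    exact hf isAlgebraic_zero
  have h1 := hodge hb hne hiso h0
  obtain ⟨α, hα⟩ := h1.2 (le_antisymm h1.1 (polar_sq hy hb hf0))
  have h2 := eff_mult hy hb hne hiso hnef (polar_eff hy hf0) hα
  refine ⟨α, lt_of_le_of_ne h2.1 ?_, hα⟩
  rintro h3
  apply hf
  obtain ⟨z, hz⟩ := const_of_reg hy (f := f) (fun P hP => by
    right
    have h4 := h2.2 h3.symm P hP
    have h5 : -(P.ord f : ℚ) ≤ 0 := by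
      rw [← h4]
      exact le_max_left _ _
    have h6 : (0 : ℚ) ≤ P.ord f := by linarith
    exact_mod_cast h6)
  rw [hz]
  exact isAlgebraic_algebraMap z

/-- Algebraically independent functions with polar divisors orthogonal to `L` bound the Iitaka
dimension of `L`. -/
theorem iitaka_of_polar (hy : NormalModel y) (hb : IsBBForm y c b) (hL : Fin0 y L)
    (hne : cls y c L ≠ 0) (hiso : b (cls y c L) (cls y c L) = 0)
    (hnef : ∀ P, IsPrimeDivisor y P → 0 ≤ b (cls y c L) (c P)) {k : ℕ} (hk : 1 ≤ k)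
    {f : Fin k → K} (hf : AlgebraicIndependent ℂ f)
    (h0 : ∀ i, b (cls y c L) (cls y c (polar (f i))) = 0) : IitakaGe y L k := by
  classical
  have htr : ∀ i, Transcendental ℂ (f i) := fun i => hf.transcendental i
  have hf0 : ∀ i, f i ≠ 0 := by
    intro i h
    apply htr i
    rw [h]
    exact isAlgebraic_zero
  have h1 := fun i => polar_mult hy hb hne hiso hnef (htr i) (h0 i)
  choose α hα hcl using h1
  have h2 := fun i => exists_sec hb hL (polar_eff hy (hf0 i)) (hcl i)
  choose M hM g hg hgE using h2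
  have h3 : ∀ i, 0 < (α i).num := fun i => Rat.num_pos.2 (hα i)
  have h4 : ∀ i, ∃ p : ℕ, (α i).num = p := fun i => ⟨(α i).num.toNat, by have := h3 i; omega⟩
  choose p hp using h4
  have hp0 : ∀ i, 1 ≤ p i := by
    intro i
    have h5 := h3 i
    rw [hp i] at h5
    exact_mod_cast h5
  -- the order of `g i`
  have hgo : ∀ i P, IsPrimeDivisor y P →
      -((M i * p i : ℕ) * L P) + polar (f i) P ≤ (P.ord (g i) : ℚ) := by
    intro i P hP
    rw [hgE i P hP, hp i]
    have h5 : (1 : ℚ) ≤ (M i : ℚ) * (α i).den := by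
      have h6 : 1 ≤ M i * (α i).den := Nat.mul_pos (hM i) (α i).den_pos
      exact_mod_cast h6
    have h6 : 0 ≤ polar (f i) P := le_max_right _ _
    have h7 := mul_le_mul_of_nonneg_right h5 h6
    push_cast
    nlinarith
  obtain ⟨m, hm⟩ : ∃ m : ℕ, m = ∑ i, M i * p i := ⟨_, rfl⟩
  have hm1 : 1 ≤ m := by
    have h5 : M ⟨0, hk⟩ * p ⟨0, hk⟩ ≤ m := by
      rw [hm]
      exact Finset.single_le_sum (f := fun i => M i * p i) (fun _ _ => Nat.zero_le _)
        (Finset.mem_univ _)
    have h6 : 1 ≤ M ⟨0, hk⟩ * p ⟨0, hk⟩ := Nat.mul_pos (hM _) (hp0 _)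
    omega
  have hG0 : ∏ i, g i ≠ 0 := Finset.prod_ne_zero_iff.2 fun i _ => hg i
  have hord : ∀ P : Place ℂ K, (P.ord (∏ i, g i) : ℚ) = ∑ i, (P.ord (g i) : ℚ) := by
    intro P
    have h5 : ∀ s : Finset (Fin k), P.ord (∏ i ∈ s, g i) = ∑ i ∈ s, P.ord (g i) := by
      intro s
      induction s using Finset.induction_on with
      | empty => rw [Finset.prod_empty, Finset.sum_empty, P.ord_one]
      | insert a s ha ih =>
        rw [Finset.prod_insert ha, Finset.sum_insert ha,
          P.ord_mul (hg a) (Finset.prod_ne_zero_iff.2 fun i _ => hg i), ih]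
    rw [h5]
    push_cast
    rfl
  have hmL : ∀ P, (m • L) P = (m : ℚ) * L P := fun P => by rw [Pi.smul_apply, nsmul_eq_mul]
  have hlow : ∀ P, IsPrimeDivisor y P → ∀ i,
      -((m : ℚ) * L P) + polar (f i) P ≤ (P.ord (∏ j, g j) : ℚ) := by
    intro P hP i
    rw [hord, hm]
    push_cast
    rw [Finset.sum_mul, ← Finset.sum_neg_distrib,
      ← Finset.add_sum_erase _ _ (Finset.mem_univ i),
      ← Finset.add_sum_erase Finset.univ (fun j => (P.ord (g j) : ℚ)) (Finset.mem_univ i)]
    have h5 := hgo i P hP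
    have h6 : ∑ j ∈ Finset.univ.erase i, -((M j : ℚ) * p j * L P) ≤
        ∑ j ∈ Finset.univ.erase i, (P.ord (g j) : ℚ) := by
      refine Finset.sum_le_sum fun j _ => ?_
      have h7 := hgo j P hP
      have h8 : 0 ≤ polar (f j) P := le_max_right _ _
      push_cast at h7
      linarith
    push_cast at h5
    linarith
  refine ⟨m, hm1, Fin.cons (∏ i, g i) fun i => f i * ∏ j, g j, ?_, hG0, ?_⟩
  · intro j P hP
    right
    rw [hmL]
    refine Fin.cases ?_ (fun i => ?_) j
    · rw [Fin.cons_zero]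
      have h5 := hlow P hP ⟨0, hk⟩
      have h6 : 0 ≤ polar (f ⟨0, hk⟩) P := le_max_right _ _
      linarith
    · rw [Fin.cons_succ, P.ord_mul (hf0 i) hG0]
      have h5 := hlow P hP i
      have h6 : -(P.ord (f i) : ℚ) ≤ polar (f i) P := le_max_left _ _
      push_cast
      linarith
  · have h5 : (fun i : Fin k => (Fin.cons (∏ i, g i) (fun i => f i * ∏ j, g j) :
        Fin (k + 1) → K) i.succ / (Fin.cons (∏ i, g i) (fun i => f i * ∏ j, g j) :
        Fin (k + 1) → K) 0) = f := by
      funext i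
      rw [Fin.cons_succ, Fin.cons_zero, mul_div_assoc, div_self hG0, mul_one]
    rw [h5]
    exact hf

/-! ### Pseudo-automorphisms -/

/-- the image of a place under an automorphism -/
def tr (φ : K ≃ₐ[ℂ] K) (P : Place ℂ K) : Place ℂ K where
  ord g := P.ord (φ.symm g)
  ord_zero := by rw [map_zero]; exact P.ord_zero
  ord_mul := by
    intro f g hf hg
    rw [map_mul]
    exact P.ord_mul ((map_ne_zero _).2 hf) ((map_ne_zero _).2 hg)
  ord_add := by
    intro f g hf hg hfg
    rw [map_add]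
    exact P.ord_add ((map_ne_zero _).2 hf) ((map_ne_zero _).2 hg)
      (by rw [← map_add]; exact (map_ne_zero _).2 hfg)
  ord_const := by
    intro c hc
    rw [AlgEquiv.commutes]
    exact P.ord_const hc
  surj := by
    obtain ⟨t, ht, ht1⟩ := P.surj
    exact ⟨φ t, (map_ne_zero _).2 ht, by rw [AlgEquiv.symm_apply_apply]; exact ht1⟩

theorem tr_ord (φ : K ≃ₐ[ℂ] K) (P : Place ℂ K) (g : K) : P.ord g = (tr φ P).ord (φ g) := by
  change P.ord g = P.ord (φ.symm (φ g))
  rw [AlgEquiv.symm_apply_apply]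

theorem tr_unique {φ : K ≃ₐ[ℂ] K} {P Q : Place ℂ K} (h : ∀ g, P.ord g = Q.ord (φ g)) :
    Q = tr φ P := by
  apply Place.ext
  funext g
  change Q.ord g = P.ord (φ.symm g)
  rw [h, AlgEquiv.apply_symm_apply]

theorem tr_injective (φ : K ≃ₐ[ℂ] K) : Function.Injective (tr φ) := by
  intro P Q h
  apply Place.ext
  funext g
  rw [tr_ord φ P g, tr_ord φ Q g, h]

/-- The pull back of divisor classes by a pseudo-automorphism. -/
def IsPull (y : Fin (N + 1) → K) (c : Place ℂ K → Fin ρ → ℚ) (φ : K ≃ₐ[ℂ] K)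
    (T : (Fin ρ → ℚ) ≃ₗ[ℚ] (Fin ρ → ℚ)) : Prop :=
  ∀ P Q : Place ℂ K, IsPrimeDivisor y P → (∀ g, P.ord g = Q.ord (φ g)) → T (c P) = c Q

/-- The polar divisor of an invariant function has an invariant class. -/
theorem pull_polar (hy : NormalModel y) {φ : K ≃ₐ[ℂ] K} (hφ : PseudoAut φ y)
    {T : (Fin ρ → ℚ) ≃ₗ[ℚ] (Fin ρ → ℚ)} (hT : IsPull y c φ T) {f : K} (hf0 : f ≠ 0)
    (hf : φ f = f) : T (cls y c (polar f)) = cls y c (polar f) := by
  classical
  obtain ⟨S, hS, hS0, hS1⟩ := exists_finset (polar_eff hy hf0).2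
  have hpr : ∀ P, IsPrimeDivisor y P ↔ IsPrimeDivisor y (tr φ P) := fun P => hφ P _ (tr_ord φ P)
  have hpo : ∀ P, polar f (tr φ P) = polar f P := by
    intro P
    unfold polar
    rw [tr_ord φ P f, hf]
  have himg : S.image (tr φ) = S := by
    apply Finset.eq_of_subset_of_card_le
    · intro Q hQ
      obtain ⟨P, hP, rfl⟩ := Finset.mem_image.1 hQ
      by_contra h
      have h1 := hS1 _ ((hpr P).1 (hS P hP)) h
      rw [hpo] at h1
      exact hS0 P hP h1
    · rw [Finset.card_image_of_injective _ (tr_injective φ)]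
  rw [cls_finset hS hS1, map_sum]
  conv_rhs => rw [← himg]
  rw [Finset.sum_image (fun P _ Q _ h => tr_injective φ h)]
  refine Finset.sum_congr rfl fun P hP => ?_
  rw [map_smul, hpo, hT P _ (hS P hP) (tr_ord φ P)]

end

end Pool.Agent.Run7.h701.HK
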