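import Pool.Agent.Y172.Loc3
import Pool.Agent.W602.GT.Der

/-!
Rational functions without poles on a normal projective variety are constant.
-/

set_option autoImplicit false

open FF Pool.Agent.W602.GT Pool.Agent.Y172

namespace Pool.Agent.Run7.h701.HK

section

variable {K : Type} [Field K] [Algebra ℂ K] {N : ℕ} {y : Fin (N + 1) → K}

/-- a function which is regular at all prime divisors is in all the coordinate rings -/
theorem mem_chart (hy : NormalModel y) {j : Fin (N + 1)} (hj : y j ≠ 0) {f : K}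
    (hf : ∀ P, IsPrimeDivisor y P → P.Reg f) : f ∈ chart y j := by
  have := hy.frac hj
  have := hy.normal j hj
  -- the ideal of denominators
  let I : Ideal (chart y j) :=
    { carrier := {b | ∃ a : chart y j, f * (b : K) = a}
      add_mem' := by
        rintro b b' ⟨a, ha⟩ ⟨a', ha'⟩
        refine ⟨a + a', ?_⟩
        push_cast
        rw [mul_add, ha, ha']
      zero_mem' := ⟨0, by simp⟩
      smul_mem' := by
        rintro r b ⟨a, ha⟩
        refine ⟨r * a, ?_⟩
        rw [smul_eq_mul]
        push_cast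
        rw [← ha]
        ring }
  by_contra hcon
  have hI : I ≠ ⊤ := by
    intro h
    have h1 : (1 : chart y j) ∈ I := by rw [h]; trivial
    obtain ⟨a, ha⟩ := h1
    apply hcon
    have h2 : f = a := by simpa using ha
    rw [h2]
    exact a.2
  obtain ⟨q, hq, hIq⟩ := Ideal.exists_le_maximal I hI
  have hqp : q.IsPrime := hq.isPrime
  have h1 : ¬ ∃ a b : chart y j, b ∉ q ∧
      f * algebraMap (chart y j) K b = algebraMap (chart y j) K a := by
    rintro ⟨a, b, hb, hab⟩
    exact hb (hIq ⟨a, hab⟩)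
  obtain ⟨p, hp, hpq, ⟨t, ht, ht0, htp⟩, hfp⟩ := exists_assoc q h1
  obtain ⟨P, hPr, hPp⟩ := exists_place_local (chart y j) p ht ht0 htp
  have hPreg : ∀ r ∈ chart y j, P.Reg r := fun r hr => (hPr r).2
    ⟨⟨r, hr⟩, 1, fun h => hp.ne_top ((Ideal.eq_top_iff_one p).2 h), by
      change r * (1 : K) = r
      rw [mul_one]⟩
  have hPc : Centred y j P := ⟨hj, fun i => hPreg _ (gen_mem y j i)⟩
  have hun : ∀ b : chart y j, b ∉ p → (b : K) ≠ 0 ∧ P.ord (b : K) = 0 := by
    intro b hb
    rw [hPp] at hb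
    push Not at hb
    have h2 : (b : K) ≠ 0 := fun h => hb.1 (Subtype.ext h)
    have h3 := (P.reg_iff h2).1 (hPreg b b.2)
    exact ⟨h2, by have := hb.2; omega⟩
  have hPd : IsPrimeDivisor y P := by
    intro g hg
    obtain ⟨a, b, hb, hab⟩ := (hPr g).1 hg
    exact ⟨j, hPc, a, a.2, b, b.2, (hun b hb).1, (hun b hb).2, hab⟩
  exact hfp ((hPr f).1 (hf P hPd))

/-- the space of the values of the forms of degree `d` in the coordinates -/
def W (y : Fin (N + 1) → K) (d : ℕ) : Submodule ℂ K :=
  Submodule.span ℂ {m | ∃ a : Fin (N + 1) → ℕ, ∑ i, a i = d ∧ m = ∏ i, y i ^ a i}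

theorem W_mul {d e : ℕ} {f g : K} (hf : f ∈ W y d) (hg : g ∈ W y e) : f * g ∈ W y (d + e) := by
  have h1 : W y d * W y e ≤ W y (d + e) := by
    unfold W
    rw [Submodule.span_mul_span, Submodule.span_le]
    rintro _ ⟨_, ⟨a, ha, rfl⟩, _, ⟨b, hb, rfl⟩, rfl⟩
    refine Submodule.subset_span ⟨a + b, ?_, ?_⟩
    · simp only [Pi.add_apply, Finset.sum_add_distrib, ha, hb]
    · simp only [Pi.add_apply, pow_add, Finset.prod_mul_distrib]
  exact h1 (Submodule.mul_mem_mul hf hg)

theorem W_pow (j : Fin (N + 1)) (d : ℕ) : y j ^ d ∈ W y d := by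
  classical
  refine Submodule.subset_span ⟨fun i => if i = j then d else 0, ?_, ?_⟩
  · simp
  · rw [Finset.prod_eq_single j]
    · simp
    · intro i _ hi
      simp [hi]
    · simp

theorem W_one : (1 : K) ∈ W y 0 :=
  Submodule.subset_span ⟨0, by simp, by simp⟩

theorem chart_W {j : Fin (N + 1)} (hj : y j ≠ 0) {f : K} (hf : f ∈ chart y j) :
    ∃ d : ℕ, f * y j ^ d ∈ W y d := by
  induction hf using Algebra.adjoin_induction with
  | mem x hx =>
    obtain ⟨i, rfl⟩ := hx
    refine ⟨1, ?_⟩
    have h1 : y i / y j * y j ^ 1 = y i ^ 1 := by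
      rw [pow_one, pow_one, div_mul_cancel₀ _ hj]
    rw [h1]
    exact W_pow i 1
  | algebraMap c =>
    refine ⟨0, ?_⟩
    rw [pow_zero, mul_one, Algebra.algebraMap_eq_smul_one]
    exact Submodule.smul_mem _ _ W_one
  | add x z _ _ hx hz =>
    obtain ⟨d, hd⟩ := hx
    obtain ⟨e, he⟩ := hz
    refine ⟨d + e, ?_⟩
    have h1 : (x + z) * y j ^ (d + e) = x * y j ^ d * y j ^ e + z * y j ^ e * y j ^ d := by ring
    rw [h1]
    refine Submodule.add_mem _ (W_mul hd (W_pow j e)) ?_
    rw [add_comm d e]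
    exact W_mul he (W_pow j d)
  | mul x z _ _ hx hz =>
    obtain ⟨d, hd⟩ := hx
    obtain ⟨e, he⟩ := hz
    refine ⟨d + e, ?_⟩
    have h1 : x * z * y j ^ (d + e) = x * y j ^ d * (z * y j ^ e) := by ring
    rw [h1]
    exact W_mul hd he

/-- A rational function which is regular at all prime divisors of a normal projective variety is
constant. -/
theorem const_of_reg (hy : NormalModel y) {f : K} (hf : ∀ P, IsPrimeDivisor y P → P.Reg f) :
    ∃ c : ℂ, f = algebraMap ℂ K c := by
  classical
  apply const_of_algebraic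
  have h1 : ∀ j, ∃ d : ℕ, y j ≠ 0 → f * y j ^ d ∈ W y d := by
    intro j
    by_cases hj : y j = 0
    · exact ⟨0, fun h => absurd hj h⟩
    · obtain ⟨d, hd⟩ := chart_W hj (mem_chart hy hj hf)
      exact ⟨d, fun _ => hd⟩
  choose d hd using h1
  have hfg : (W y (∑ j, d j)).FG := by
    refine Submodule.fg_def.2 ⟨_, ?_, rfl⟩
    have h2 : {a : Fin (N + 1) → ℕ | ∑ i, a i = ∑ j, d j}.Finite := by
      refine (Set.Finite.pi fun _ : Fin (N + 1) => Set.finite_Iic (∑ j, d j)).subset ?_
      intro a ha i _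
      rw [Set.mem_Iic, ← (ha : ∑ i, a i = ∑ j, d j)]
      exact Finset.single_le_sum (f := a) (fun _ _ => Nat.zero_le _) (Finset.mem_univ i)
    refine (h2.image fun a => ∏ i, y i ^ a i).subset ?_
    rintro _ ⟨a, ha, rfl⟩
    exact ⟨a, ha, rfl⟩
  have hne : W y (∑ j, d j) ≠ ⊥ := by
    obtain ⟨j, hj⟩ := hy.ne
    intro h
    have h2 : y j ^ (∑ j, d j) ∈ W y (∑ j, d j) := W_pow j _
    rw [h, Submodule.mem_bot] at h2
    exact pow_ne_zero _ hj h2
  refine (isIntegral_of_smul_mem_submodule (W y (∑ j, d j)) hne hfg f ?_).isAlgebraic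
  intro g hg
  rw [smul_eq_mul]
  refine Submodule.span_induction (p := fun g _ => f * g ∈ W y (∑ j, d j)) ?_ ?_ ?_ ?_ hg
  · rintro _ ⟨a, ha, rfl⟩
    by_cases h0 : ∃ i, y i = 0 ∧ a i ≠ 0
    · obtain ⟨i, hi, hai⟩ := h0
      have h2 : ∏ i, y i ^ a i = 0 :=
        Finset.prod_eq_zero (Finset.mem_univ i) (by rw [hi, zero_pow hai])
      rw [h2, mul_zero]
      exact Submodule.zero_mem _
    · push Not at h0
      have h2 : ∃ j, y j ≠ 0 ∧ d j ≤ a j := by
        by_contra hcon
        push Not at hcon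
        obtain ⟨j0, hj0⟩ := hy.ne
        have h3 : ∑ i, a i < ∑ j, d j := by
          refine Finset.sum_lt_sum (fun i _ => ?_) ⟨j0, Finset.mem_univ _, hcon j0 hj0⟩
          by_cases hi : y i = 0
          · rw [h0 i hi]
            exact Nat.zero_le _
          · exact (hcon i hi).le
        omega
      obtain ⟨j, hj, hdj⟩ := h2
      have h3 : ∏ i, y i ^ a i = y j ^ d j * ∏ i, y i ^ (a i - if i = j then d j else 0) := by
        rw [← Finset.mul_prod_erase _ _ (Finset.mem_univ j),
          ← Finset.mul_prod_erase _ (fun i => y i ^ (a i - if i = j then d j else 0))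
            (Finset.mem_univ j)]
        rw [if_pos rfl, ← mul_assoc, ← pow_add, Nat.add_sub_cancel' hdj]
        congr 1
        refine Finset.prod_congr rfl fun i hi => ?_
        rw [if_neg (Finset.ne_of_mem_erase hi), Nat.sub_zero]
      have h4 : ∑ i, (a i - if i = j then d j else 0) = ∑ i, a i - d j := by
        rw [← Finset.add_sum_erase _ _ (Finset.mem_univ j),
          ← Finset.add_sum_erase (a := j) (f := a) Finset.univ (Finset.mem_univ j), if_pos rfl]
        have h5 : ∑ i ∈ Finset.univ.erase j, (a i - if i = j then d j else 0) =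
            ∑ i ∈ Finset.univ.erase j, a i := by
          refine Finset.sum_congr rfl fun i hi => ?_
          rw [if_neg (Finset.ne_of_mem_erase hi), Nat.sub_zero]
        rw [h5]
        omega
      have h6 : d j ≤ ∑ i, a i :=
        hdj.trans (Finset.single_le_sum (f := a) (fun _ _ => Nat.zero_le _) (Finset.mem_univ j))
      rw [h3, ← mul_assoc]
      have h7 : ∏ i, y i ^ (a i - if i = j then d j else 0) ∈ W y (∑ i, a i - d j) :=
        Submodule.subset_span ⟨_, h4, rfl⟩
      have h8 := W_mul (hd j hj) h7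
      rwa [Nat.add_sub_cancel' h6, ha] at h8
  · rw [mul_zero]
    exact Submodule.zero_mem _
  · intro g h _ _ hg hh
    rw [mul_add]
    exact Submodule.add_mem _ hg hh
  · intro c g _ hg
    rw [mul_smul_comm]
    exact Submodule.smul_mem _ _ hg

end

end Pool.Agent.Run7.h701.HK
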