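import Pool.Agent.Run7.h701.HK.Defs
import Pool.Agent.Run7.h701.HK.Const
import Pool.Agent.N110.NV.Cl

/-!
Effective divisors orthogonal to a nef isotropic class.
-/

set_option autoImplicit false

open FF Pool.Agent.W602.GT Pool.Agent.Y172 Pool.Agent.N110 Pool.Agent.N110.NV Pool.Agent.N110.DV

namespace Pool.Agent.Run7.h701.HK

section

variable {K : Type} [Field K] [Algebra ℂ K] {N ρ : ℕ} {y : Fin (N + 1) → K}
  {c : Place ℂ K → Fin ρ → ℚ} {b : LinearMap.BilinForm ℚ (Fin ρ → ℚ)}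

theorem exists_finset {D : Place ℂ K → ℚ} (h : Fin0 y D) : ∃ T : Finset (Place ℂ K),
    (∀ P ∈ T, IsPrimeDivisor y P) ∧ (∀ P ∈ T, D P ≠ 0) ∧
      ∀ P, IsPrimeDivisor y P → P ∉ T → D P = 0 := by
  refine ⟨h.toFinset, fun P hP => ?_, fun P hP => ?_, fun P hP hPT => ?_⟩
  · exact ((Set.Finite.mem_toFinset h).1 hP).1
  · exact ((Set.Finite.mem_toFinset h).1 hP).2
  · by_contra h0
    exact hPT ((Set.Finite.mem_toFinset h).2 ⟨hP, h0⟩)

theorem pair_cls {D : Place ℂ K → ℚ} {T : Finset (Place ℂ K)} (hT : ∀ P ∈ T, IsPrimeDivisor y P)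
    (hD : ∀ P, IsPrimeDivisor y P → P ∉ T → D P = 0) (u : Fin ρ → ℚ) :
    b u (cls y c D) = ∑ P ∈ T, D P * b u (c P) := by
  rw [cls_finset hT hD, map_sum]
  refine Finset.sum_congr rfl fun P _ => ?_
  rw [map_smul, smul_eq_mul]

theorem pair_nonneg {D : Place ℂ K → ℚ} (hD : Effective y D) {u : Fin ρ → ℚ}
    (hu : ∀ P, IsPrimeDivisor y P → D P ≠ 0 → 0 ≤ b u (c P)) : 0 ≤ b u (cls y c D) := by
  obtain ⟨T, hT, hT0, hT1⟩ := exists_finset hD.2
  rw [pair_cls hT hT1]
  exact Finset.sum_nonneg fun P hP => mul_nonneg (hD.1 P (hT P hP)) (hu P (hT P hP) (hT0 P hP))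

theorem pair_zero {D : Place ℂ K → ℚ} (hD : Effective y D) {u : Fin ρ → ℚ}
    (hu : ∀ P, IsPrimeDivisor y P → 0 ≤ b u (c P)) (h0 : b u (cls y c D) = 0)
    {P : Place ℂ K} (hP : IsPrimeDivisor y P) (hPD : D P ≠ 0) : b u (c P) = 0 := by
  obtain ⟨T, hT, hT0, hT1⟩ := exists_finset hD.2
  rw [pair_cls hT hT1, Finset.sum_eq_zero_iff_of_nonneg
    fun P hP => mul_nonneg (hD.1 P (hT P hP)) (hu P (hT P hP))] at h0
  have hPT : P ∈ T := by
    by_contra h
    exact hPD (hT1 P hP h)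
  exact (mul_eq_zero.1 (h0 P hPT)).resolve_left hPD

theorem pair_eq_zero {D : Place ℂ K → ℚ} (hD : Fin0 y D) {u : Fin ρ → ℚ}
    (hu : ∀ P, IsPrimeDivisor y P → D P ≠ 0 → b u (c P) = 0) : b u (cls y c D) = 0 := by
  obtain ⟨T, hT, hT0, hT1⟩ := exists_finset hD
  rw [pair_cls hT hT1]
  exact Finset.sum_eq_zero fun P hP => by rw [hu P (hT P hP) (hT0 P hP), mul_zero]

/-- The Hodge index theorem for the orthogonal complement of an isotropic vector. -/
theorem hodge (hb : IsBBForm y c b) {u v : Fin ρ → ℚ} (hu : u ≠ 0) (huu : b u u = 0)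
    (huv : b u v = 0) : b v v ≤ 0 ∧ (b v v = 0 → ∃ t : ℚ, v = t • u) := by
  obtain ⟨h, hh, hneg⟩ := hb.index
  have hhu : b h u ≠ 0 := by
    intro h0
    have := hneg u h0 hu
    rw [huu] at this
    exact lt_irrefl _ this
  obtain ⟨s, hs⟩ : ∃ s : ℚ, s = b h v / b h u := ⟨_, rfl⟩
  obtain ⟨w, hw⟩ : ∃ w, w = v - s • u := ⟨_, rfl⟩
  have h1 : b h w = 0 := by
    rw [hw, map_sub, map_smul, smul_eq_mul, hs]
    field_simp
    ring
  have h2 : b w w = b v v := by
    rw [hw]
    simp only [map_sub, map_smul, LinearMap.sub_apply, LinearMap.smul_apply, smul_eq_mul, huu, huv,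
      hb.symm v u]
    ring
  by_cases hw0 : w = 0
  · have h3 : v = s • u := by
      rw [hw0] at hw
      exact (sub_eq_zero.1 hw.symm)
    refine ⟨?_, fun _ => ⟨s, h3⟩⟩
    rw [← h2, hw0]
    simp
  · have h3 := hneg w h1 hw0
    rw [h2] at h3
    exact ⟨h3.le, fun h4 => absurd h4 h3.ne⟩

/-- the form is nondegenerate -/
theorem exists_prime (hb : IsBBForm y c b) {u : Fin ρ → ℚ} (hu : u ≠ 0) (huu : b u u = 0) :
    ∃ P, IsPrimeDivisor y P ∧ b u (c P) ≠ 0 := by
  by_contra hcon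
  push Not at hcon
  have h1 : ∀ v, b u v = 0 := by
    intro v
    have hv : v ∈ Submodule.span ℚ {v | ∃ P, IsPrimeDivisor y P ∧ v = c P} := by
      rw [hb.span]
      trivial
    refine Submodule.span_induction (p := fun v _ => b u v = 0) ?_ ?_ ?_ ?_ hv
    · rintro _ ⟨P, hP, rfl⟩
      exact hcon P hP
    · exact map_zero _
    · intro v w _ _ hv hw
      rw [map_add, hv, hw, add_zero]
    · intro a v _ hv
      rw [map_smul, hv, smul_zero]
  obtain ⟨h, hh, hneg⟩ := hb.index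
  have h2 := hneg u (by rw [hb.symm]; exact h1 h) hu
  rw [huu] at h2
  exact lt_irrefl _ h2

/-- an effective divisor with class zero is zero -/
theorem eff_zero (hy : NormalModel y) (hb : IsBBForm y c b) {E : Place ℂ K → ℚ}
    (hE : Effective y E) (h0 : cls y c E = 0) {P : Place ℂ K} (hP : IsPrimeDivisor y P) :
    E P = 0 := by
  obtain ⟨m, hm, f, hf, hfE⟩ := hb.classes.torsion E hE.2 h0
  have hm' : (0 : ℚ) < m := by exact_mod_cast hm
  obtain ⟨z, hz⟩ := const_of_reg hy (f := f) (fun Q hQ => by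
    right
    have h1 : (0 : ℚ) ≤ Q.ord f := by
      rw [hfE Q hQ]
      exact mul_nonneg hm'.le (hE.1 Q hQ)
    exact_mod_cast h1)
  have hz0 : z ≠ 0 := by
    rintro rfl
    rw [map_zero] at hz
    exact hf hz
  have h2 : P.ord f = 0 := by
    rw [hz]
    exact P.ord_const hz0
  have h3 := hfE P hP
  rw [h2] at h3
  have h4 : (m : ℚ) * E P = 0 := by
    rw [← h3]
    simp
  exact (mul_eq_zero.1 h4).resolve_left hm'.ne'

variable {L : Place ℂ K → ℚ}

theorem eff_mult (hy : NormalModel y) (hb : IsBBForm y c b) (hne : cls y c L ≠ 0)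
    (hiso : b (cls y c L) (cls y c L) = 0)
    (hnef : ∀ P, IsPrimeDivisor y P → 0 ≤ b (cls y c L) (c P)) {E : Place ℂ K → ℚ}
    (hE : Effective y E) {t : ℚ} (ht : cls y c E = t • cls y c L) :
    0 ≤ t ∧ (t = 0 → ∀ P, IsPrimeDivisor y P → E P = 0) := by
  constructor
  · by_contra hcon
    push Not at hcon
    obtain ⟨P, hP, hPL⟩ := exists_prime hb hne hiso
    have h1 : b (cls y c L) (cls y c E) = 0 := by rw [ht, map_smul, hiso, smul_zero]
    have h2 : E P = 0 := by
      by_contra h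
      exact hPL (pair_zero hE hnef h1 hP h)
    have h3 : 0 ≤ b (c P) (cls y c E) := by
      refine pair_nonneg hE fun Q hQ hQE => hb.prime P Q hP hQ ?_
      rintro rfl
      exact hQE h2
    rw [ht, map_smul, smul_eq_mul, hb.symm] at h3
    have h4 := lt_of_le_of_ne (hnef P hP) (Ne.symm hPL)
    nlinarith
  · rintro rfl P hP
    exact eff_zero hy hb hE (by rw [ht, zero_smul]) hP

/-- Disjoint effective divisors orthogonal to `L` whose difference is a multiple of `L`. -/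
theorem disj (hb : IsBBForm y c b) (hne : cls y c L ≠ 0)
    (hiso : b (cls y c L) (cls y c L) = 0) {A B : Place ℂ K → ℚ} (hA : Effective y A)
    (hB : Effective y B) (hAL : ∀ P, IsPrimeDivisor y P → A P ≠ 0 → b (cls y c L) (c P) = 0)
    (hBL : ∀ P, IsPrimeDivisor y P → B P ≠ 0 → b (cls y c L) (c P) = 0)
    (hAB : ∀ P, IsPrimeDivisor y P → A P = 0 ∨ B P = 0) {t : ℚ}
    (ht : cls y c A = cls y c B + t • cls y c L) :
    (∃ α : ℚ, cls y c A = α • cls y c L) ∧ ∃ β : ℚ, cls y c B = β • cls y c L := by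
  have h1 : 0 ≤ b (cls y c A) (cls y c B) := by
    refine pair_nonneg hB fun P hP hPB => ?_
    rw [hb.symm]
    refine pair_nonneg hA fun Q hQ hQA => hb.prime P Q hP hQ ?_
    rintro rfl
    rcases hAB P hP with h | h
    · exact hQA h
    · exact hPB h
  have hLA : b (cls y c L) (cls y c A) = 0 := pair_eq_zero hA.2 hAL
  have hLB : b (cls y c L) (cls y c B) = 0 := pair_eq_zero hB.2 hBL
  have hAA : b (cls y c A) (cls y c A) = b (cls y c A) (cls y c B) := by
    have h2 : b (cls y c A) (cls y c B + t • cls y c L) = b (cls y c A) (cls y c B) := by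
      rw [map_add, map_smul, hb.symm (cls y c A) (cls y c L), hLA, smul_zero, add_zero]
    rwa [← ht] at h2
  have hBB : b (cls y c B) (cls y c B) = b (cls y c A) (cls y c B) := by
    have h2 : b (cls y c B + t • cls y c L) (cls y c B) = b (cls y c B) (cls y c B) := by
      rw [map_add, LinearMap.add_apply, map_smul, LinearMap.smul_apply, hLB, smul_zero, add_zero]
    rw [← ht] at h2
    exact h2.symm
  have h2 := hodge hb hne hiso hLA
  have h3 := hodge hb hne hiso hLB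
  rw [hAA] at h2
  rw [hBB] at h3
  exact ⟨h2.2 (le_antisymm h2.1 h1), h3.2 (le_antisymm h3.1 h1)⟩

/-- sections of multiples of `L` from an effective divisor with class a multiple of `L` -/
theorem exists_sec (hb : IsBBForm y c b) (hL : Fin0 y L) {A : Place ℂ K → ℚ}
    (hA : Effective y A) {α : ℚ} (h : cls y c A = α • cls y c L) :
    ∃ M : ℕ, 1 ≤ M ∧ ∃ g : K, g ≠ 0 ∧ ∀ P, IsPrimeDivisor y P →
      (P.ord g : ℚ) = M * (α.den * A P - α.num * L P) := by
  have h1 : cls y c (fun P => (α.den : ℚ) * A P - (α.num : ℚ) * L P) = 0 := by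
    have h2 : Fin0 y (fun P => (α.den : ℚ) * A P) := Fin0.smul hA.2 _
    have h3 : Fin0 y (fun P => (α.num : ℚ) * L P) := Fin0.smul hL _
    rw [cls_sub h2 h3, cls_smul, cls_smul, h, smul_smul, ← sub_smul]
    have h4 : (α.den : ℚ) * α - (α.num : ℚ) = 0 := by
      have h5 := Rat.mul_den_eq_num α
      linarith
    rw [h4, zero_smul]
  obtain ⟨M, hM, f, hf, hfE⟩ := hb.classes.torsion _
    ((Fin0.smul hA.2 (α.den : ℚ)).sub (Fin0.smul hL (α.num : ℚ))) h1
  exact ⟨M, hM, f, hf, hfE⟩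

end

end Pool.Agent.Run7.h701.HK
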