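import Pool.Agent.N110.DV.Defs
import Pool.Agent.N110.NV.Defs

/-!
Beauville–Bogomolov forms on the divisor classes of a normal projective variety, and the prime
divisors orthogonal to a divisor.
-/

set_option autoImplicit false

open FF Pool.Agent.W602.GT Pool.Agent.Y172 Pool.Agent.N110

namespace Pool.Agent.Run7.h701.HK

section

variable {K : Type} [Field K] [Algebra ℂ K] {N ρ : ℕ}

/-- The vectors `c P` describe the classes of the prime divisors `P` of `X` in `Cl X ⊗ ℚ = ℚ ^ ρ`
(`FiniteClasses`: irregularity zero) and generate this space, so that `ρ` is the Picard number if `X`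
is smooth, and `b` is a symmetric bilinear form on `ℚ ^ ρ` of signature `(1, ρ - 1)` which is
nonnegative on pairs of different prime divisors. On a projective hyperkähler manifold the
Beauville–Bogomolov form is such a form (Beauville, Boucksom). -/
structure IsBBForm (y : Fin (N + 1) → K) (c : Place ℂ K → Fin ρ → ℚ)
    (b : LinearMap.BilinForm ℚ (Fin ρ → ℚ)) : Prop where
  classes : FiniteClasses y c
  span : Submodule.span ℚ {v | ∃ P, IsPrimeDivisor y P ∧ v = c P} = ⊤
  symm : ∀ u v, b u v = b v u
  index : ∃ h, 0 < b h h ∧ ∀ v, b h v = 0 → v ≠ 0 → b v v < 0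
  prime : ∀ P Q, IsPrimeDivisor y P → IsPrimeDivisor y Q → P ≠ Q → 0 ≤ b (c P) (c Q)

/-- The set of the prime divisors of `X` which are orthogonal to the divisor `L`. -/
def orth (y : Fin (N + 1) → K) (c : Place ℂ K → Fin ρ → ℚ)
    (b : LinearMap.BilinForm ℚ (Fin ρ → ℚ)) (L : Place ℂ K → ℚ) : Set (Place ℂ K) :=
  {P | IsPrimeDivisor y P ∧ b (cls y c L) (c P) = 0}

end

end Pool.Agent.Run7.h701.HK
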