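import Pool.Agent.Run7.h701.HK.Main

/-!
If the Iitaka dimension is positive then infinitely many prime divisors are orthogonal.
-/

set_option autoImplicit false

open FF Pool.Agent.W602.GT Pool.Agent.Y172 Pool.Agent.N110 Pool.Agent.N110.NV Pool.Agent.N110.DV

namespace Pool.Agent.Run7.h701.HK

section

variable {K : Type} [Field K] [Algebra ℂ K] {N ρ n : ℕ} {y : Fin (N + 1) → K}
  {c : Place ℂ K → Fin ρ → ℚ} {b : LinearMap.BilinForm ℚ (Fin ρ → ℚ)} {L : Place ℂ K → ℚ}

/-- all but at most one member of a pencil have the same order at a place -/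
theorem pencil_ord (P : Place ℂ K) {g0 g1 : K} (hg0 : g0 ≠ 0)
    (hs : ∀ z : ℂ, g1 - algebraMap ℂ K z * g0 ≠ 0) :
    {z : ℂ | ∃ w : ℂ, P.ord (g1 - algebraMap ℂ K w * g0) <
      P.ord (g1 - algebraMap ℂ K z * g0)}.Finite := by
  apply Set.Subsingleton.finite
  -- two bad members
  have key : ∀ z z' w : ℂ, z ≠ z' →
      P.ord (g1 - algebraMap ℂ K w * g0) < P.ord (g1 - algebraMap ℂ K z * g0) →
      P.ord (g1 - algebraMap ℂ K w * g0) < P.ord (g1 - algebraMap ℂ K z' * g0) → False := by
    intro z z' w hzz h1 h2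
    have hzw : z' - z ≠ 0 := sub_ne_zero.2 (Ne.symm hzz)
    have e1 : (g1 - algebraMap ℂ K z * g0) - (g1 - algebraMap ℂ K z' * g0) =
        algebraMap ℂ K (z' - z) * g0 := by
      rw [map_sub]
      ring
    have hc : algebraMap ℂ K (z' - z) ≠ 0 := (map_ne_zero _).2 hzw
    have h3 := P.ord_sub (hs z) (hs z') (by rw [e1]; exact mul_ne_zero hc hg0)
    rw [e1, P.ord_mul hc hg0, P.ord_const hzw, zero_add] at h3
    have h4 : P.ord (g1 - algebraMap ℂ K w * g0) < P.ord g0 := lt_of_lt_of_le (lt_min h1 h2) h3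
    by_cases hw : z = w
    · subst hw
      exact lt_irrefl _ h1
    · have hzw' : z - w ≠ 0 := sub_ne_zero.2 hw
      have hc' : algebraMap ℂ K (z - w) ≠ 0 := (map_ne_zero _).2 hzw'
      have e2 : g1 - algebraMap ℂ K w * g0 =
          (g1 - algebraMap ℂ K z * g0) + algebraMap ℂ K (z - w) * g0 := by
        rw [map_sub]
        ring
      have h5 := P.ord_add (hs z) (mul_ne_zero hc' hg0) (by rw [← e2]; exact hs w)
      rw [← e2, P.ord_mul hc' hg0, P.ord_const hzw', zero_add] at h5
      have h6 : P.ord (g1 - algebraMap ℂ K w * g0) < P.ord (g1 - algebraMap ℂ K w * g0) :=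
        lt_of_lt_of_le (lt_min h1 h4) h5
      exact lt_irrefl _ h6
  rintro z ⟨w, hw⟩ z' ⟨w', hw'⟩
  by_contra hzz
  rcases le_total (P.ord (g1 - algebraMap ℂ K w * g0)) (P.ord (g1 - algebraMap ℂ K w' * g0))
    with h | h
  · exact key z z' w hzz hw (lt_of_le_of_lt h hw')
  · exact key z z' w' hzz (lt_of_le_of_lt h hw) hw'

/-- The members of the linear systems `|m L|` consist of prime divisors orthogonal to `L`. -/
theorem member_orth (hy : NormalModel y) (hb : IsBBForm y c b)
    (hiso : b (cls y c L) (cls y c L) = 0)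
    (hnef : ∀ P, IsPrimeDivisor y P → 0 ≤ b (cls y c L) (c P))
    (hL : Fin0 y L) {m : ℕ} {g : K} (hg : g ≠ 0) (hs : SecD y (m • L) g) {P : Place ℂ K}
    (hP : IsPrimeDivisor y P) (hPo : P ∉ orth y c b L) : (P.ord g : ℚ) = -(m * L P) := by
  have hfE : Fin0 y (fun Q => (Q.ord g : ℚ) + (m : ℚ) * L Q) := (fin_ord hy hg).add (hL.smul _)
  have hmL : ∀ Q, (m • L) Q = (m : ℚ) * L Q := fun Q => by
    rw [Pi.smul_apply, nsmul_eq_mul]
  have hE : Effective y (fun Q => (Q.ord g : ℚ) + (m : ℚ) * L Q) := by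
    refine ⟨fun Q hQ => ?_, hfE⟩
    have h1 := (hs Q hQ).resolve_left hg
    rw [hmL] at h1
    linarith
  have hcl : cls y c (fun Q => (Q.ord g : ℚ) + (m : ℚ) * L Q) = (m : ℚ) • cls y c L := by
    rw [cls_add (fin_ord hy hg) (hL.smul _), hb.classes.principal g hg, zero_add, cls_smul]
  have h0 : b (cls y c L) (cls y c (fun Q => (Q.ord g : ℚ) + (m : ℚ) * L Q)) = 0 := by
    rw [hcl, map_smul, hiso, smul_zero]
  by_contra hne
  apply hPo
  refine ⟨hP, pair_zero hE hnef h0 hP fun h => hne ?_⟩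
  have h : (P.ord g : ℚ) + (m : ℚ) * L P = 0 := h
  linarith

theorem inf_of_iitaka (hy : NormalModel y) (hb : IsBBForm y c b)
    (hiso : b (cls y c L) (cls y c L) = 0)
    (hnef : ∀ P, IsPrimeDivisor y P → 0 ≤ b (cls y c L) (c P))
    (hL : Fin0 y L) (h : IitakaGe y L 1) : (orth y c b L).Infinite := by
  intro hfin
  obtain ⟨m, hm, g, hg, hg0, hai⟩ := h
  rw [algebraicIndependent_unique_type_iff] at hai
  have htr : Transcendental ℂ (g 1 / g 0) := hai
  have hs : ∀ z : ℂ, g 1 - algebraMap ℂ K z * g 0 ≠ 0 := by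
    intro z hz
    apply htr
    have h1 : g 1 / g 0 = algebraMap ℂ K z := by
      rw [div_eq_iff hg0]
      exact sub_eq_zero.1 hz
    rw [h1]
    exact isAlgebraic_algebraMap z
  have hsec : ∀ z : ℂ, SecD y (m • L) (g 1 - algebraMap ℂ K z * g 0) := by
    intro z P hP
    right
    by_cases hz : z = 0
    · subst hz
      rw [map_zero, zero_mul, sub_zero]
      have h1 : g 1 ≠ 0 := by
        have h2 := hs 0
        rwa [map_zero, zero_mul, sub_zero] at h2
      exact (hg 1 P hP).resolve_left h1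
    · have hc : algebraMap ℂ K z ≠ 0 := (map_ne_zero _).2 hz
      have h2 : P.ord (algebraMap ℂ K z * g 0) = P.ord (g 0) := by
        rw [P.ord_mul hc hg0, P.ord_const hz, zero_add]
      have h3 := (hg 0 P hP).resolve_left hg0
      rcases eq_or_ne (g 1) 0 with h4 | h4
      · rw [h4, zero_sub, P.ord_neg, h2]
        exact h3
      · have h5 := P.ord_sub h4 (mul_ne_zero hc hg0) (hs z)
        rw [h2] at h5
        have h6 := (hg 1 P hP).resolve_left h4
        have h7 : (min (P.ord (g 1)) (P.ord (g 0)) : ℚ) ≤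
            (P.ord (g 1 - algebraMap ℂ K z * g 0) : ℚ) := by exact_mod_cast h5
        exact (le_min h6 h3).trans h7
  -- two members with the same orders at the orthogonal prime divisors
  have hbad : (⋃ P ∈ orth y c b L, {z : ℂ | ∃ w : ℂ, P.ord (g 1 - algebraMap ℂ K w * g 0) <
      P.ord (g 1 - algebraMap ℂ K z * g 0)}).Finite :=
    hfin.biUnion fun P _ => pencil_ord P hg0 hs
  have hinf := hbad.infinite_compl
  obtain ⟨z, hz, w, hw, hzw⟩ := hinf.nontrivial
  have hord : ∀ P, IsPrimeDivisor y P →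
      P.ord (g 1 - algebraMap ℂ K z * g 0) = P.ord (g 1 - algebraMap ℂ K w * g 0) := by
    intro P hP
    by_cases hPo : P ∈ orth y c b L
    · rw [Set.mem_compl_iff, Set.mem_iUnion₂] at hz hw
      push Not at hz hw
      have h1 := hz P hPo
      have h2 := hw P hPo
      rw [Set.mem_setOf_eq] at h1 h2
      push Not at h1 h2
      exact le_antisymm (h1 w) (h2 z)
    · have h1 := member_orth hy hb hiso hnef hL (hs z) (hsec z) hP hPo
      have h2 := member_orth hy hb hiso hnef hL (hs w) (hsec w) hP hPo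
      have h3 : (P.ord (g 1 - algebraMap ℂ K z * g 0) : ℚ) =
          P.ord (g 1 - algebraMap ℂ K w * g 0) := by rw [h1, h2]
      exact_mod_cast h3
  obtain ⟨u, hu⟩ := const_of_reg hy
    (f := (g 1 - algebraMap ℂ K z * g 0) / (g 1 - algebraMap ℂ K w * g 0)) (fun P hP => by
      right
      rw [P.ord_div (hs z) (hs w), hord P hP, sub_self])
  rw [div_eq_iff (hs w)] at hu
  apply htr
  have h1 : (1 - algebraMap ℂ K u) * g 1 = (algebraMap ℂ K z - algebraMap ℂ K u *
      algebraMap ℂ K w) * g 0 := by linear_combination hu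
  by_cases hu1 : u = 1
  · subst hu1
    rw [map_one, sub_self, zero_mul, one_mul] at h1
    have h2 := (mul_eq_zero.1 h1.symm).resolve_right hg0
    rw [← map_sub] at h2
    exact absurd (sub_eq_zero.1 ((map_eq_zero _).1 h2)) hzw
  · have hu0 : (1 : ℂ) - u ≠ 0 := sub_ne_zero.2 (Ne.symm hu1)
    have h2 : g 1 / g 0 = algebraMap ℂ K ((z - u * w) / (1 - u)) := by
      rw [map_div₀, map_sub, map_sub, map_one, map_mul]
      rw [div_eq_div_iff hg0]
      · linear_combination h1
      · rw [← map_one (algebraMap ℂ K), ← map_sub]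
        exact (map_ne_zero _).2 hu0
    rw [h2]
    exact isAlgebraic_algebraMap _

/-- **The number of the prime divisors orthogonal to a nef isotropic divisor.** -/
theorem main (hy : NormalModel y) (hn : Algebra.trdeg ℂ K = n) (hb : IsBBForm y c b)
    (hL : Fin0 y L) (hnef : NefD y n L) (hne : cls y c L ≠ 0)
    (hiso : b (cls y c L) (cls y c L) = 0) :
    (IitakaGe y L 1 ↔ (orth y c b L).Infinite) ∧
    (¬ IitakaGe y L 1 → (orth y c b L).Finite ∧ (orth y c b L).ncard + 1 ≤ ρ) ∧
    (¬ IitakaGe y L 0 → (orth y c b L).ncard + 2 ≤ ρ) := by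
  have hnef' : ∀ P, IsPrimeDivisor y P → 0 ≤ b (cls y c L) (c P) :=
    fun P hP => nef_pair hy hn hb hL hnef hP
  have h1 : ¬ IitakaGe y L 1 → (orth y c b L).Finite := by
    intro h
    by_contra hinf
    obtain ⟨S, hS, hSc⟩ := Set.Infinite.exists_subset_card_eq hinf ρ
    exact h ((many hy hb hne hiso hnef' hL fun P hP => hS hP).2 hSc.ge)
  have h10 : IitakaGe y L 1 → IitakaGe y L 0 := by
    rintro ⟨m, hm, g, hg, hg0, -⟩
    refine ⟨m, hm, fun _ => g 0, fun _ => hg 0, hg0, ?_⟩
    rw [algebraicIndependent_empty_type_iff]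
    exact (algebraMap ℂ K).injective
  refine ⟨⟨inf_of_iitaka hy hb hiso hnef' hL, fun h => ?_⟩, fun h => ⟨h1 h, ?_⟩, fun h => ?_⟩
  · by_contra hcon
    exact h (h1 hcon)
  · by_contra hcon
    have h2 := (many hy hb hne hiso hnef' hL (S := (h1 h).toFinset)
      fun P hP => (h1 h).mem_toFinset.1 hP).2
    rw [← Set.ncard_eq_toFinset_card _ (h1 h)] at h2
    exact h (h2 (by omega))
  · by_contra hcon
    have hf := h1 fun h' => h (h10 h')
    have h2 := (many hy hb hne hiso hnef' hL (S := hf.toFinset)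
      fun P hP => hf.mem_toFinset.1 hP).1
    rw [← Set.ncard_eq_toFinset_card _ hf] at h2
    exact h (h2 (by omega))

end

end Pool.Agent.Run7.h701.HK
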